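import Mathlib

/-!
# Extension of scalars for spaces of matrices
-/

set_option autoImplicit false
set_option linter.unusedSectionVars false

namespace Pool.Agent.H851

open Matrix

/-- the extension of the space `L` of matrices with entries in `k` to the field `F` -/
def ext {k : Type} (F : Type) [Field k] [Field F] [Algebra k F] {n : Type}
    (L : Submodule k (Matrix n n k)) : Submodule F (Matrix n n F) :=
  Submodule.span F ((fun x : Matrix n n k => x.map (algebraMap k F)) '' L)

section

variable {k F : Type} [Field k] [Field F] [Algebra k F] {n : Type} [Fintype n] [DecidableEq n]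

theorem mem_ext {L : Submodule k (Matrix n n k)} {x : Matrix n n k} (hx : x ∈ L) :
    x.map (algebraMap k F) ∈ ext F L := Submodule.subset_span ⟨x, hx, rfl⟩

theorem ext_le {L : Submodule k (Matrix n n k)} {S : Submodule F (Matrix n n F)}
    (h : ∀ x ∈ L, x.map (algebraMap k F) ∈ S) : ext F L ≤ S := by
  rw [ext, Submodule.span_le]
  rintro _ ⟨x, hx, rfl⟩
  exact h x hx

theorem ext_mono {L L' : Submodule k (Matrix n n k)} (h : L ≤ L') :
    ext F L ≤ (ext F L' : Submodule F (Matrix n n F)) :=
  ext_le fun _ hx => mem_ext (h hx)

theorem map_mul' (x y : Matrix n n k) : (x * y).map (algebraMap k F) =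
    x.map (algebraMap k F) * y.map (algebraMap k F) := Matrix.map_mul

theorem map_sub' (x y : Matrix n n k) : (x - y).map (algebraMap k F) =
    x.map (algebraMap k F) - y.map (algebraMap k F) := by
  ext i j
  simp

theorem map_add' (x y : Matrix n n k) : (x + y).map (algebraMap k F) =
    x.map (algebraMap k F) + y.map (algebraMap k F) := by
  ext i j
  simp

theorem map_smul' (c : k) (x : Matrix n n k) : (c • x).map (algebraMap k F) =
    algebraMap k F c • x.map (algebraMap k F) := by
  ext i j
  simp

theorem map_one' : (1 : Matrix n n k).map (algebraMap k F) = 1 :=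
  Matrix.map_one _ (map_zero _) (map_one _)

/-- induction for the elements of the extension -/
theorem ext_induction {L : Submodule k (Matrix n n k)} {p : Matrix n n F → Prop}
    (h0 : ∀ x ∈ L, p (x.map (algebraMap k F))) (hz : p 0) (ha : ∀ x y, p x → p y → p (x + y))
    (hs : ∀ (c : F) x, p x → p (c • x)) {x : Matrix n n F} (hx : x ∈ ext F L) : p x := by
  refine Submodule.span_induction (p := fun y _ => p y) ?_ hz (fun x y _ _ => ha x y)
    (fun c y _ => hs c y) hx
  rintro _ ⟨y, hy, rfl⟩
  exact h0 y hy

theorem ext_bracket {L : Submodule k (Matrix n n k)}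
    (h : ∀ x ∈ L, ∀ y ∈ L, x * y - y * x ∈ L) {x y : Matrix n n F} (hx : x ∈ ext F L)
    (hy : y ∈ ext F L) : x * y - y * x ∈ ext F L := by
  revert y
  refine ext_induction (p := fun x => ∀ {y : Matrix n n F}, y ∈ ext F L → x * y - y * x ∈ ext F L)
    ?_ ?_ ?_ ?_ hx
  · intro x hx y hy
    refine ext_induction (p := fun y => x.map (algebraMap k F) * y - y * x.map (algebraMap k F) ∈
      ext F L) ?_ ?_ ?_ ?_ hy
    · intro y hy
      rw [← map_mul', ← map_mul', ← map_sub']
      exact mem_ext (h x hx y hy)
    · rw [mul_zero, zero_mul, sub_self]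
      exact Submodule.zero_mem _
    · intro y z h1 h2
      have := Submodule.add_mem _ h1 h2
      convert this using 1
      noncomm_ring
    · intro c y h1
      have := Submodule.smul_mem _ c h1
      rwa [smul_sub, ← mul_smul_comm, ← smul_mul_assoc] at this
  · intro y _
    rw [mul_zero, zero_mul, sub_self]
    exact Submodule.zero_mem _
  · intro x z h1 h2 y hy
    have := Submodule.add_mem _ (h1 hy) (h2 hy)
    convert this using 1
    noncomm_ring
  · intro c x h1 y hy
    have := Submodule.smul_mem _ c (h1 hy)
    rwa [smul_sub, ← mul_smul_comm, ← smul_mul_assoc, smul_mul_assoc, mul_smul_comm,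
      ← smul_mul_assoc, ← mul_smul_comm] at this

/-- the extension of a functional to matrices over the larger field -/
def extf (F : Type) [Field F] [Algebra k F] (f : Matrix n n k →ₗ[k] k) :
    Matrix n n F →ₗ[F] F where
  toFun M := ∑ i, ∑ j, M i j * algebraMap k F (f (Matrix.single i j 1))
  map_add' M N := by
    simp only [Matrix.add_apply, add_mul, Finset.sum_add_distrib]
  map_smul' c M := by
    simp only [Matrix.smul_apply, smul_eq_mul, mul_assoc, Finset.mul_sum, RingHom.id_apply]

theorem extf_map (f : Matrix n n k →ₗ[k] k) (x : Matrix n n k) :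
    extf F f (x.map (algebraMap k F)) = algebraMap k F (f x) := by
  have h1 : f x = ∑ i, ∑ j, x i j * f (Matrix.single i j 1) := by
    conv_lhs => rw [Matrix.matrix_eq_sum_single x]
    rw [map_sum]
    refine Finset.sum_congr rfl fun i _ => ?_
    rw [map_sum]
    refine Finset.sum_congr rfl fun j _ => ?_
    have e : Matrix.single i j (x i j) = x i j • Matrix.single i j (1 : k) := by
      rw [Matrix.smul_single, smul_eq_mul, mul_one]
    rw [e, map_smul, smul_eq_mul]
  rw [h1]
  change ∑ i, ∑ j, (x.map (algebraMap k F)) i j * algebraMap k F (f (Matrix.single i j 1)) = _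
  simp only [map_sum, map_mul, Matrix.map_apply]

/-- descent -/
theorem mem_of_ext {L : Submodule k (Matrix n n k)} {x : Matrix n n k}
    (hx : x.map (algebraMap k F) ∈ ext F L) : x ∈ L := by
  by_contra hne
  obtain ⟨f, hf, hLf⟩ := Submodule.exists_le_ker_of_notMem hne
  have h1 : ∀ y ∈ ext F L, extf F f y = 0 := by
    intro y hy
    refine ext_induction (p := fun y => extf F f y = 0) ?_ ?_ ?_ ?_ hy
    · intro z hz
      rw [extf_map, LinearMap.mem_ker.1 (hLf hz), map_zero]
    · exact map_zero _
    · intro a b ha hb
      rw [map_add, ha, hb, add_zero]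
    · intro c a ha
      rw [map_smul, ha, smul_zero]
  have h2 := h1 _ hx
  rw [extf_map] at h2
  exact hf ((algebraMap k F).injective (by rw [h2, map_zero]))

theorem mem_ext_iff {L : Submodule k (Matrix n n k)} {x : Matrix n n k} :
    x.map (algebraMap k F) ∈ ext F L ↔ x ∈ L := ⟨mem_of_ext, mem_ext⟩

end

section tower

variable {k E F : Type} [Field k] [Field E] [Field F] [Algebra k E] [Algebra E F] [Algebra k F]
  [IsScalarTower k E F] {n : Type} [Fintype n] [DecidableEq n]

theorem map_map' (x : Matrix n n k) :
    (x.map (algebraMap k E)).map (algebraMap E F) = x.map (algebraMap k F) := by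
  ext i j
  rw [Matrix.map_apply, Matrix.map_apply, Matrix.map_apply, ← IsScalarTower.algebraMap_apply]

theorem ext_ext (L : Submodule k (Matrix n n k)) : ext F (ext E L) = ext F L := by
  apply le_antisymm
  · refine ext_le fun x hx => ?_
    refine ext_induction (p := fun x => x.map (algebraMap E F) ∈ ext F L) ?_ ?_ ?_ ?_ hx
    · intro y hy
      rw [map_map']
      exact mem_ext hy
    · rw [Matrix.map_zero _ (map_zero _)]
      exact Submodule.zero_mem _
    · intro a b ha hb
      rw [map_add']
      exact Submodule.add_mem _ ha hb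
    · intro c a ha
      rw [map_smul']
      exact Submodule.smul_mem _ _ ha
  · refine ext_le fun x hx => ?_
    rw [← map_map' (E := E)]
    exact mem_ext (mem_ext hx)

end tower

end Pool.Agent.H851
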