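import Pool.Graph.R_pool_sql_team_seeded_3dad9d7b.NH56.HY.Log
import Pool.Graph.R_pool_sql_team_seeded_3dad9d7b.NH56.HY.TanB

/-!
# The Lie algebra of the image of a Galois group

`LieImage ρ I` (defined in the library) is a Lie algebra over `ℚ_ℓ` if `I` is a subgroup.
-/

set_option autoImplicit false
set_option linter.unusedSectionVars false

namespace Pool.Agent.H851

open Filter Topology Matrix
open scoped Matrix.Norms.Elementwise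
open Pool.Agent.NH56.HY (LieImage)
open Pool.Agent.NH56.HY.LogP

variable {ℓ : ℕ} [Fact ℓ.Prime] {n : Type} [Fintype n] [DecidableEq n] {Γ : Type} [Group Γ]

theorem l_ne (k : ℕ) : (ℓ : ℚ_[ℓ]) ^ k ≠ 0 :=
  pow_ne_zero _ (Nat.cast_ne_zero.2 (Fact.out : ℓ.Prime).ne_zero)

theorem l_lim : Tendsto (fun k : ℕ => (ℓ : ℚ_[ℓ]) ^ k) atTop (𝓝 0) :=
  tendsto_pow_atTop_nhds_zero_of_norm_lt_one Padic.norm_p_lt_one

/-- `M k = 1 + ℓ ^ k Z + o (ℓ ^ k)` -/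
def Dv (M : ℕ → Matrix n n ℚ_[ℓ]) (Z : Matrix n n ℚ_[ℓ]) : Prop :=
  Tendsto (fun k : ℕ => ((ℓ : ℚ_[ℓ]) ^ k)⁻¹ • (M k - 1)) atTop (𝓝 Z)

theorem Dv.lim {M : ℕ → Matrix n n ℚ_[ℓ]} {Z : Matrix n n ℚ_[ℓ]} (h : Dv M Z) :
    Tendsto M atTop (𝓝 1) := by
  have h1 := (l_lim (ℓ := ℓ)).smul h
  rw [zero_smul] at h1
  have h2 := h1.add_const (1 : Matrix n n ℚ_[ℓ])
  rw [zero_add] at h2
  refine h2.congr fun k => ?_
  rw [smul_smul, mul_inv_cancel₀ (l_ne k), one_smul, sub_add_cancel]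

theorem Dv.mul {M N : ℕ → Matrix n n ℚ_[ℓ]} {X Y : Matrix n n ℚ_[ℓ]} (h : Dv M X) (h' : Dv N Y) :
    Dv (fun k => M k * N k) (X + Y) := by
  have h1 : Tendsto (fun k => (((ℓ : ℚ_[ℓ]) ^ k)⁻¹ • (M k - 1)) * N k +
      ((ℓ : ℚ_[ℓ]) ^ k)⁻¹ • (N k - 1)) atTop (𝓝 (X * 1 + Y)) :=
    Tendsto.add (Tendsto.mul h (Dv.lim h')) h'
  rw [mul_one] at h1
  refine h1.congr fun k => ?_
  rw [smul_mul_assoc, ← smul_add, sub_mul, one_mul, sub_add_sub_cancel]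

theorem Dv.pow {M : ℕ → Matrix n n ℚ_[ℓ]} {X : Matrix n n ℚ_[ℓ]} (h : Dv M X) (m : ℕ → ℕ)
    (c : ℚ_[ℓ]) (hm : Tendsto (fun k => (m k : ℚ_[ℓ])) atTop (𝓝 c)) :
    Dv (fun k => M k ^ m k) (c • X) := by
  have h1 : Tendsto (fun k => (m k : ℚ_[ℓ]) • (((ℓ : ℚ_[ℓ]) ^ k)⁻¹ • (M k - 1))) atTop
      (𝓝 (c • X)) := hm.smul h
  have hMl := h.lim
  have h2 : Tendsto (fun k => ‖M k - 1‖) atTop (𝓝 0) := by
    have := (hMl.sub_const 1).norm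
    rwa [sub_self, norm_zero] at this
  -- the remainder
  have h3 : Tendsto (fun k => ((ℓ : ℚ_[ℓ]) ^ k)⁻¹ • (M k ^ m k - 1) -
      (m k : ℚ_[ℓ]) • (((ℓ : ℚ_[ℓ]) ^ k)⁻¹ • (M k - 1))) atTop (𝓝 0) := by
    refine tendsto_zero_iff_norm_tendsto_zero.2 ?_
    have h4 : Tendsto (fun k => ‖((ℓ : ℚ_[ℓ]) ^ k)⁻¹ • (M k - 1)‖ * ‖M k - 1‖) atTop
        (𝓝 (‖X‖ * 0)) := Tendsto.mul (Tendsto.norm h) h2
    rw [mul_zero] at h4
    refine squeeze_zero' (Eventually.of_forall fun k => norm_nonneg _) ?_ h4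
    have h5 : ∀ᶠ k in atTop, ‖M k - 1‖ ≤ 1 := by
      filter_upwards [(tendsto_order.1 h2).2 1 one_pos] with k hk
      exact hk.le
    filter_upwards [h5] with k hk
    have h6 := T_bd hk (le_refl ‖M k - 1‖) (m k)
    have h7 : ‖M k ^ m k - 1 - (m k : ℚ_[ℓ]) • (M k - 1)‖ ≤ ‖M k - 1‖ * ‖M k - 1‖ := by
      have e : M k ^ m k - 1 - (m k : ℚ_[ℓ]) • (M k - 1) =
          (M k ^ m k - 1 - (m k : ℚ_[ℓ]) • (M k - 1) -
            (((m k).choose 2 : ℕ) : ℚ_[ℓ]) • (M k - 1) ^ 2) +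
            (((m k).choose 2 : ℕ) : ℚ_[ℓ]) • (M k - 1) ^ 2 := by abel
      rw [e]
      refine nadd_le (h6.trans ?_) ((nnat _ _).trans ?_)
      · have h8 : (0 : ℝ) ≤ ‖M k - 1‖ := norm_nonneg _
        nlinarith [mul_nonneg h8 h8]
      · rw [pow_two]
        exact nmul _ _
    have e2 : ((ℓ : ℚ_[ℓ]) ^ k)⁻¹ • (M k ^ m k - 1) -
        (m k : ℚ_[ℓ]) • (((ℓ : ℚ_[ℓ]) ^ k)⁻¹ • (M k - 1)) =
        ((ℓ : ℚ_[ℓ]) ^ k)⁻¹ • (M k ^ m k - 1 - (m k : ℚ_[ℓ]) • (M k - 1)) := by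
      rw [smul_comm (m k : ℚ_[ℓ]), ← smul_sub]
    rw [e2, norm_smul, norm_smul, mul_assoc]
    exact mul_le_mul_of_nonneg_left h7 (norm_nonneg _)
  have h8 := h3.add h1
  rw [zero_add] at h8
  refine h8.congr fun k => ?_
  rw [sub_add_cancel]

theorem Dv.inv {M M' : ℕ → Matrix n n ℚ_[ℓ]} {Z : Matrix n n ℚ_[ℓ]} (h : Dv M Z)
    (hM : ∀ k, M k * M' k = 1) : Tendsto M' atTop (𝓝 1) ∧ Dv M' (-Z) := by
  have h1 : Tendsto M' atTop (𝓝 1) := by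
    have h2 : ∀ k, M' k = ((M k).det)⁻¹ • (M k).adjugate := by
      intro k
      have h3 : (M k)⁻¹ = M' k := Matrix.inv_eq_right_inv (hM k)
      rw [← h3, Matrix.inv_def, Ring.inverse_eq_inv']
    have h4 : Tendsto (fun k => ((M k).det)⁻¹ • (M k).adjugate) atTop
        (𝓝 (((1 : Matrix n n ℚ_[ℓ]).det)⁻¹ • (1 : Matrix n n ℚ_[ℓ]).adjugate)) := by
      apply Tendsto.smul
      · apply Tendsto.inv₀
        · exact ((Continuous.matrix_det continuous_id).tendsto _).comp h.lim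
        · rw [det_one]; exact one_ne_zero
      · exact ((Continuous.matrix_adjugate continuous_id).tendsto _).comp h.lim
    rw [det_one, inv_one, one_smul, adjugate_one] at h4
    exact h4.congr fun k => (h2 k).symm
  refine ⟨h1, ?_⟩
  have h2 : Tendsto (fun k => (((ℓ : ℚ_[ℓ]) ^ k)⁻¹ • (M k - 1)) * M' k) atTop (𝓝 (Z * 1)) :=
    Tendsto.mul h h1
  rw [mul_one] at h2
  refine h2.neg.congr fun k => ?_
  rw [smul_mul_assoc, sub_mul, hM k, one_mul, ← smul_neg, neg_sub]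

/-- every `ℓ`-adic integer is a limit of natural numbers -/
theorem exists_nat_seq (c : ℚ_[ℓ]) (hc : ‖c‖ ≤ 1) :
    ∃ m : ℕ → ℕ, Tendsto (fun k => (m k : ℚ_[ℓ])) atTop (𝓝 c) := by
  obtain ⟨z, hz⟩ : ∃ z : ℤ_[ℓ], (z : ℚ_[ℓ]) = c := ⟨⟨c, hc⟩, rfl⟩
  refine ⟨fun k => PadicInt.appr z k, ?_⟩
  rw [tendsto_iff_norm_sub_tendsto_zero]
  have h1 : ∀ k : ℕ, ‖((PadicInt.appr z k : ℕ) : ℚ_[ℓ]) - c‖ ≤ ((ℓ : ℝ)⁻¹) ^ k := by
    intro k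
    have h2 := PadicInt.appr_spec k z
    have h3 := (PadicInt.norm_le_pow_iff_mem_span_pow _ k).2 h2
    have h4 : ‖z - ((PadicInt.appr z k : ℕ) : ℤ_[ℓ])‖ =
        ‖((PadicInt.appr z k : ℕ) : ℚ_[ℓ]) - c‖ := by
      rw [← norm_neg, neg_sub, PadicInt.norm_def, ← hz]
      simp
    rw [h4] at h3
    refine h3.trans (le_of_eq ?_)
    rw [_root_.zpow_neg, zpow_natCast, inv_pow]
  refine squeeze_zero (fun k => norm_nonneg _) h1 ?_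
  have h2 : (1 : ℝ) < ℓ := by exact_mod_cast (Fact.out : ℓ.Prime).one_lt
  exact tendsto_pow_atTop_nhds_zero_of_lt_one (by positivity) (inv_lt_one_of_one_lt₀ h2)

section

variable (ρ : Γ →* Matrix n n ℚ_[ℓ]) (I : Subgroup Γ)

theorem li_zero : (0 : Matrix n n ℚ_[ℓ]) ∈ LieImage ρ (I : Set Γ) := by
  refine ⟨fun _ => 1, fun _ => I.one_mem, ?_⟩
  simp only [map_one, sub_self, smul_zero]
  exact tendsto_const_nhds

theorem li_add {X Y : Matrix n n ℚ_[ℓ]} (hX : X ∈ LieImage ρ (I : Set Γ))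
    (hY : Y ∈ LieImage ρ (I : Set Γ)) : X + Y ∈ LieImage ρ (I : Set Γ) := by
  obtain ⟨s, hs, h1⟩ := hX
  obtain ⟨t, ht, h2⟩ := hY
  refine ⟨fun k => s k * t k, fun k => I.mul_mem (hs k) (ht k), ?_⟩
  have h3 : Dv (fun k => ρ (s k) * ρ (t k)) (X + Y) := Dv.mul h1 h2
  refine h3.congr fun k => ?_
  rw [map_mul]

theorem li_int {X : Matrix n n ℚ_[ℓ]} (c : ℚ_[ℓ]) (hc : ‖c‖ ≤ 1)
    (hX : X ∈ LieImage ρ (I : Set Γ)) : c • X ∈ LieImage ρ (I : Set Γ) := by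
  obtain ⟨s, hs, h1⟩ := hX
  obtain ⟨m, hm⟩ := exists_nat_seq c hc
  refine ⟨fun k => s k ^ m k, fun k => I.pow_mem (hs k) _, ?_⟩
  have h3 : Dv (fun k => ρ (s k) ^ m k) (c • X) := Dv.pow h1 m c hm
  refine h3.congr fun k => ?_
  rw [map_pow]

theorem li_div {X : Matrix n n ℚ_[ℓ]} (hX : X ∈ LieImage ρ (I : Set Γ)) :
    (ℓ : ℚ_[ℓ])⁻¹ • X ∈ LieImage ρ (I : Set Γ) := by
  obtain ⟨s, hs, h1⟩ := hX
  refine ⟨fun k => s (k - 1), fun k => hs _, ?_⟩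
  have h2 : Tendsto (fun k : ℕ => (ℓ : ℚ_[ℓ])⁻¹ • (((ℓ : ℚ_[ℓ]) ^ (k - 1))⁻¹ •
      (ρ (s (k - 1)) - 1))) atTop (𝓝 ((ℓ : ℚ_[ℓ])⁻¹ • X)) :=
    (h1.comp (tendsto_sub_atTop_nat 1)).const_smul _
  refine h2.congr' ?_
  filter_upwards [eventually_ge_atTop 1] with k hk
  rw [smul_smul, ← mul_inv, ← pow_succ']
  congr 4
  omega

theorem li_smul {X : Matrix n n ℚ_[ℓ]} (c : ℚ_[ℓ])
    (hX : X ∈ LieImage ρ (I : Set Γ)) : c • X ∈ LieImage ρ (I : Set Γ) := by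
  have h1 : ∀ j : ℕ, ((ℓ : ℚ_[ℓ]) ^ j)⁻¹ • X ∈ LieImage ρ (I : Set Γ) := by
    intro j
    induction j with
    | zero => rw [pow_zero, inv_one, one_smul]; exact hX
    | succ j ih =>
      have := li_div ρ I ih
      rwa [smul_smul, ← mul_inv, ← pow_succ'] at this
  obtain ⟨j, hj⟩ : ∃ j : ℕ, ‖(ℓ : ℚ_[ℓ]) ^ j * c‖ ≤ 1 := by
    have h2 : Tendsto (fun j : ℕ => ‖(ℓ : ℚ_[ℓ]) ^ j * c‖) atTop (𝓝 0) := by
      have := ((l_lim (ℓ := ℓ)).mul_const c).norm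
      rwa [zero_mul, norm_zero] at this
    obtain ⟨j, hj⟩ := ((tendsto_order.1 h2).2 1 one_pos).exists
    exact ⟨j, hj.le⟩
  have h3 := li_int ρ I _ hj (h1 j)
  rwa [smul_smul, mul_comm, ← mul_assoc, inv_mul_cancel₀ (l_ne j), one_mul] at h3

theorem li_bracket {X Y : Matrix n n ℚ_[ℓ]} (hX : X ∈ LieImage ρ (I : Set Γ))
    (hY : Y ∈ LieImage ρ (I : Set Γ)) : X * Y - Y * X ∈ LieImage ρ (I : Set Γ) := by
  obtain ⟨s, hs, h1⟩ := hX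
  obtain ⟨t, ht, h2⟩ := hY
  -- the exponents `a k + b k = k`, `a k = k / 2`
  have ha : Tendsto (fun k : ℕ => k / 2) atTop atTop := Nat.tendsto_div_const_atTop two_ne_zero
  have hb : Tendsto (fun k : ℕ => k - k / 2) atTop atTop := by
    refine tendsto_atTop_mono (fun k => ?_) ha
    omega
  refine ⟨fun k => s (k / 2) * t (k - k / 2) * (s (k / 2))⁻¹ * (t (k - k / 2))⁻¹, fun k =>
    I.mul_mem (I.mul_mem (I.mul_mem (hs _) (ht _)) (I.inv_mem (hs _))) (I.inv_mem (ht _)), ?_⟩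
  have hsi : ∀ k, ρ (s k) * ρ (s k)⁻¹ = 1 := fun k => by rw [← map_mul, mul_inv_cancel, map_one]
  have hti : ∀ k, ρ (t k) * ρ (t k)⁻¹ = 1 := fun k => by rw [← map_mul, mul_inv_cancel, map_one]
  have h3 : Tendsto (fun k => ρ (s k)⁻¹) atTop (𝓝 1) := (Dv.inv (M := fun k => ρ (s k)) h1 hsi).1
  have h4 : Tendsto (fun k => ρ (t k)⁻¹) atTop (𝓝 1) := (Dv.inv (M := fun k => ρ (t k)) h2 hti).1
  have h5 := h1.comp ha
  have h6 := h2.comp hb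
  have h7 : Tendsto (fun k : ℕ => ((((ℓ : ℚ_[ℓ]) ^ (k / 2))⁻¹ • (ρ (s (k / 2)) - 1)) *
      (((ℓ : ℚ_[ℓ]) ^ (k - k / 2))⁻¹ • (ρ (t (k - k / 2)) - 1)) -
      (((ℓ : ℚ_[ℓ]) ^ (k - k / 2))⁻¹ • (ρ (t (k - k / 2)) - 1)) *
      (((ℓ : ℚ_[ℓ]) ^ (k / 2))⁻¹ • (ρ (s (k / 2)) - 1))) * ρ (s (k / 2))⁻¹ *
        ρ (t (k - k / 2))⁻¹) atTop (𝓝 ((X * Y - Y * X) * 1 * 1)) :=
    (((h5.mul h6).sub (h6.mul h5)).mul (h3.comp ha)).mul (h4.comp hb)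
  rw [mul_one, mul_one] at h7
  refine h7.congr fun k => ?_
  have e1 : ((ℓ : ℚ_[ℓ]) ^ k)⁻¹ = ((ℓ : ℚ_[ℓ]) ^ (k / 2))⁻¹ * ((ℓ : ℚ_[ℓ]) ^ (k - k / 2))⁻¹ := by
    rw [← mul_inv, ← pow_add]
    congr 2
    omega
  have hs' := hsi (k / 2)
  have ht' := hti (k - k / 2)
  have hs'' : ρ (s (k / 2))⁻¹ * ρ (s (k / 2)) = 1 := by rw [← map_mul, inv_mul_cancel, map_one]
  rw [map_mul, map_mul, map_mul, e1]
  generalize ρ (s (k / 2)) = A at *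
  generalize ρ (t (k - k / 2)) = B at *
  generalize ρ (s (k / 2))⁻¹ = A' at *
  generalize ρ (t (k - k / 2))⁻¹ = B' at *
  generalize ((ℓ : ℚ_[ℓ]) ^ (k / 2))⁻¹ = a
  generalize ((ℓ : ℚ_[ℓ]) ^ (k - k / 2))⁻¹ = b
  have e2 : A * B * A' * B' - 1 = (A * B - B * A) * A' * B' := by
    rw [sub_mul, sub_mul]
    congr 1
    rw [mul_assoc B, hs', mul_one, ht']
  rw [e2]
  rw [smul_mul_smul_comm, smul_mul_smul_comm, mul_comm b a, ← smul_sub, smul_mul_assoc,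
    smul_mul_assoc]
  congr 3
  noncomm_ring

/-- conjugation -/
theorem li_conj {X : Matrix n n ℚ_[ℓ]} (hX : X ∈ LieImage ρ (I : Set Γ)) (g : Γ)
    (hg : ∀ x ∈ I, g * x * g⁻¹ ∈ I) : ρ g * X * ρ g⁻¹ ∈ LieImage ρ (I : Set Γ) := by
  obtain ⟨s, hs, h1⟩ := hX
  refine ⟨fun k => g * s k * g⁻¹, fun k => hg _ (hs k), ?_⟩
  have h2 : Tendsto (fun k : ℕ => ρ g * (((ℓ : ℚ_[ℓ]) ^ k)⁻¹ • (ρ (s k) - 1)) * ρ g⁻¹) atTop
      (𝓝 (ρ g * X * ρ g⁻¹)) := (h1.const_mul _).mul_const _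
  refine h2.congr fun k => ?_
  have h3 : ρ g * ρ g⁻¹ = 1 := by rw [← map_mul, mul_inv_cancel, map_one]
  rw [map_mul, map_mul, mul_smul_comm, smul_mul_assoc, mul_sub, mul_one, sub_mul, h3]

/-- the Lie algebra of the image, as a subspace -/
def LI : Submodule ℚ_[ℓ] (Matrix n n ℚ_[ℓ]) where
  carrier := LieImage ρ (I : Set Γ)
  add_mem' := li_add ρ I
  zero_mem' := li_zero ρ I
  smul_mem' c _ h := li_smul ρ I c h

theorem mem_LI {X : Matrix n n ℚ_[ℓ]} : X ∈ LI ρ I ↔ X ∈ LieImage ρ (I : Set Γ) := Iff.rfl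

end

end Pool.Agent.H851
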